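import Pool.Agent.U474.FN.Core

/-!
# The join of `d` copies of three points

By helper474.
-/

set_option autoImplicit false
set_option linter.unusedSectionVars false

namespace Pool.Agent.U474.FN

open Pool.Agent.W907.SG Pool.Agent.W907.SM Pool.Agent.TH652.Above Pool.Agent.R703.CW
open Pool.Agent.Y132.SI Pool.Agent.N13.EU

/-- the join of `d` copies of three points -/
abbrev tri (d : ℕ) : SimpleGraph (Fin d × Fin 3) := SimpleGraph.comap Prod.fst ⊤

theorem tri_adj {d : ℕ} (x y : Fin d × Fin 3) : (tri d).Adj x y ↔ x.1 ≠ y.1 := by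
  simp

theorem lv_tri (d : ℕ) (S : Finset (Fin d)) : ∀ j : ℕ, j ≠ S.card →
    LV ((tri d).induce {x | x.1 ∈ S}) j := by
  classical
  induction S using Finset.induction_on with
  | empty =>
    intro j hj
    rw [Finset.card_empty] at hj
    refine lv_set ?_ (lv_empty (tri d) j (by omega))
    ext x
    simp
  | insert s S hs ih =>
    intro j hj
    rw [Finset.card_insert_of_notMem hs] at hj
    refine lv_add (tri d) _ (s, 0) (by simp) j ?_ fun j' hj' => ?_
    · refine lsusp _ _ ⟨(s, 1), by simp⟩ ⟨(s, 2), by simp⟩ j ?_ ?_ ?_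
      · intro h
        have := congrArg (fun x => x.1.2) h
        simp at this
      · simp
      · rintro ⟨⟨a, b⟩, hu1, hu2⟩ h1 h2
        have hab : a ∈ S := by
          have h3 : a ∈ insert s S := hu1
          rw [Finset.mem_insert] at h3
          rcases h3 with rfl | h3
          · exfalso
            fin_cases b
            · exact hu2 rfl
            · exact h1 rfl
            · exact h2 rfl
          · exact h3
        have hne : a ≠ s := fun e => hs (e ▸ hab)
        exact ⟨(tri_adj _ _).2 hne, (tri_adj _ _).2 hne⟩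
    · refine lv_set ?_ (ih j' (by omega))
      ext ⟨a, b⟩
      simp only [Set.mem_inter_iff, Set.mem_ofPred_eq, SimpleGraph.mem_neighborSet, tri_adj, Finset.mem_insert]
      constructor
      · rintro ⟨h1 | h1, h2⟩
        · exact absurd h1.symm h2
        · exact h1
      · intro h
        exact ⟨Or.inr h, fun e => hs (e ▸ h)⟩

open Classical in
/-- the faces of the join of `d` copies of three points -/
theorem tri_count (d k : ℕ) :
    (Finset.univ.filter fun T : Finset (Fin d × Fin 3) => (tri d).IsClique (T : Set _) ∧ T.card = k).card =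
      3 ^ k * d.choose k := by
  have hinj : ∀ T : Finset (Fin d × Fin 3), (tri d).IsClique (T : Set _) →
      Set.InjOn Prod.fst (T : Set (Fin d × Fin 3)) := by
    intro T hT x hx y hy hxy
    by_contra hne
    exact (tri_adj x y).1 (hT hx hy hne) hxy
  have h1 : ∀ T ∈ (Finset.univ.filter fun T : Finset (Fin d × Fin 3) =>
      (tri d).IsClique (T : Set _) ∧ T.card = k),
      T.image Prod.fst ∈ Finset.powersetCard k (Finset.univ : Finset (Fin d)) := by
    intro T hT
    rw [Finset.mem_filter] at hT
    rw [Finset.mem_powersetCard]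
    exact ⟨Finset.subset_univ _, by rw [Finset.card_image_of_injOn (hinj T hT.2.1), hT.2.2]⟩
  rw [Finset.card_eq_sum_card_fiberwise h1]
  have h2 : ∀ S ∈ Finset.powersetCard k (Finset.univ : Finset (Fin d)),
      ((Finset.univ.filter fun T : Finset (Fin d × Fin 3) => (tri d).IsClique (T : Set _) ∧ T.card = k).filter
        fun T => T.image Prod.fst = S).card = 3 ^ k := by
    intro S hS
    rw [Finset.mem_powersetCard] at hS
    have h3 : Fintype.card (↥S → Fin 3) = 3 ^ k := by
      rw [Fintype.card_fun, Fintype.card_fin, Fintype.card_coe, hS.2]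
    rw [← h3, ← Finset.card_univ]
    symm
    refine Finset.card_bij (fun (g : ↥S → Fin 3) _ => Finset.univ.image fun x : ↥S => (x.1, g x)) ?_ ?_ ?_
    · intro g _
      have hi : Function.Injective fun x : ↥S => ((x.1, g x) : Fin d × Fin 3) := fun x y h =>
        Subtype.ext (congrArg Prod.fst h)
      rw [Finset.mem_filter, Finset.mem_filter]
      refine ⟨⟨Finset.mem_univ _, ?_, ?_⟩, ?_⟩
      · intro x hx y hy hxy
        rw [Finset.mem_coe, Finset.mem_image] at hx hy
        obtain ⟨x', -, rfl⟩ := hx
        obtain ⟨y', -, rfl⟩ := hy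
        rw [tri_adj]
        intro h
        have : x' = y' := Subtype.ext h
        exact hxy (by rw [this])
      · rw [Finset.card_image_of_injective _ hi, Finset.card_univ, Fintype.card_coe, hS.2]
      · ext x
        simp
    · intro g _ g' _ h
      funext x
      have h4 : ((x.1, g x) : Fin d × Fin 3) ∈ Finset.univ.image fun x : ↥S => ((x.1, g' x) : Fin d × Fin 3) := by
        rw [← h]
        exact Finset.mem_image_of_mem _ (Finset.mem_univ _)
      obtain ⟨y, -, hy⟩ := Finset.mem_image.1 h4
      have h5 : y = x := Subtype.ext (congrArg Prod.fst hy)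
      subst h5
      exact (congrArg Prod.snd hy).symm
    · intro T hT
      rw [Finset.mem_filter, Finset.mem_filter] at hT
      obtain ⟨⟨-, hT1, -⟩, hT3⟩ := hT
      have h6 : ∀ x : ↥S, ∃ y, ((x.1, y) : Fin d × Fin 3) ∈ T := by
        intro x
        have h7 : x.1 ∈ T.image Prod.fst := by
          rw [hT3]
          exact x.2
        obtain ⟨⟨a, b⟩, h8, h9⟩ := Finset.mem_image.1 h7
        exact ⟨b, by rw [← h9]; exact h8⟩
      choose g hg using h6
      refine ⟨g, Finset.mem_univ _, ?_⟩
      ext ⟨a, b⟩
      rw [Finset.mem_image]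
      constructor
      · rintro ⟨x, -, hx⟩
        rw [← hx]
        exact hg x
      · intro hab
        have ha : a ∈ S := by
          rw [← hT3]
          exact Finset.mem_image_of_mem _ hab
        refine ⟨⟨a, ha⟩, Finset.mem_univ _, ?_⟩
        exact hinj T hT1 (hg ⟨a, ha⟩) hab rfl
  rw [Finset.sum_congr rfl h2, Finset.sum_const, Finset.card_powersetCard, Finset.card_univ, Fintype.card_fin,
    smul_eq_mul, mul_comm]

/-- the Euler characteristic -/
theorem tri_chi (d : ℕ) : chiW (tri d) = (-1 / 2) ^ d := by
  classical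
  rw [Br.chi_filter]
  have hle : ∀ T ∈ (Finset.univ.filter fun T : Finset (Fin d × Fin 3) => (tri d).IsClique (T : Set _)),
      T.card ∈ Finset.range (d + 1) := by
    intro T hT
    rw [Finset.mem_filter] at hT
    have h1 : (T.image Prod.fst).card = T.card := Finset.card_image_of_injOn (fun x hx y hy hxy => by
      by_contra hne
      exact (tri_adj x y).1 (hT.2 hx hy hne) hxy)
    have h2 := Finset.card_le_univ (T.image Prod.fst)
    rw [h1, Fintype.card_fin] at h2
    rw [Finset.mem_range]
    omega
  rw [← Finset.sum_fiberwise_of_maps_to hle]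
  have h3 : ∀ k ∈ Finset.range (d + 1),
      ∑ T ∈ (Finset.univ.filter fun T : Finset (Fin d × Fin 3) => (tri d).IsClique (T : Set _)).filter
        (fun T => T.card = k), (-1 / 2 : ℚ) ^ T.card = (-3 / 2) ^ k * 1 ^ (d - k) * d.choose k := by
    intro k _
    rw [Finset.filter_filter]
    have h4 : ∀ T ∈ (Finset.univ.filter fun T : Finset (Fin d × Fin 3) => (tri d).IsClique (T : Set _) ∧
        T.card = k), (-1 / 2 : ℚ) ^ T.card = (-1 / 2 : ℚ) ^ k := fun T hT => by
      rw [(Finset.mem_filter.1 hT).2.2]
    rw [Finset.sum_congr rfl h4, Finset.sum_const]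
    have h5 := tri_count d k
    have h6 : (Finset.univ.filter fun T : Finset (Fin d × Fin 3) => (tri d).IsClique (T : Set _) ∧
        T.card = k).card = 3 ^ k * d.choose k := by
      rw [← h5]
    rw [h6, nsmul_eq_mul, Nat.cast_mul, Nat.cast_pow, one_pow, mul_one,
      show (-3 / 2 : ℚ) = 3 * (-1 / 2) by norm_num, mul_pow]
    push_cast
    ring
  rw [Finset.sum_congr rfl h3, ← add_pow]
  norm_num

/-- **sharpness** -/
theorem sharp (d : ℕ) : ∃ (V : Type) (_ : Fintype V) (_ : LinearOrder V) (G : SimpleGraph V),
    (∀ i : ℕ, L2Van G i ↔ i ≠ d) ∧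
      ∀ k : ℕ, {T : Finset V | G.IsClique (T : Set V) ∧ T.card = k}.ncard = 3 ^ k * d.choose k := by
  classical
  have hL : ∀ i : ℕ, i ≠ d → LV (tri d) i := by
    intro i hi
    rw [← lv_univ]
    refine lv_set ?_ (lv_tri d Finset.univ i (by rwa [Finset.card_univ, Fintype.card_fin]))
    ext x
    simp
  let o : LinearOrder (Fin d × Fin 3) :=
    LinearOrder.lift' (Fintype.equivFin (Fin d × Fin 3)) (Fintype.equivFin _).injective
  refine ⟨Fin d × Fin 3, inferInstance, o, tri d, fun i => ⟨?_, fun hi => hL i hi _ _⟩, fun k => ?_⟩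
  · rintro h rfl
    have h1 := (@l2eul (Fin i × Fin 3) _ o (tri i) i fun j hj => hL j hj _ _).1 (fun j => by
      by_cases hj : j = i
      · rw [hj]
        exact h
      · exact hL j hj _ _)
    rw [tri_chi] at h1
    exact absurd h1 (pow_ne_zero _ (by norm_num))
  · rw [← tri_count d k, ← Set.ncard_coe_finset]
    congr 1
    ext T
    simp

end Pool.Agent.U474.FN
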