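import Pool.Agent.U474.FN.Sharp

/-!
# Orderings

By helper474.
-/

set_option autoImplicit false
set_option linter.unusedSectionVars false

namespace Pool.Agent.U474.FN

open Pool.Agent.W907.SG Pool.Agent.W907.SM Pool.Agent.TH652.Above Pool.Agent.R703.CW
open Pool.Agent.Y132.SI Pool.Agent.N13.EU

/-- prefixes -/
theorem lv_prefix {V : Type} [Finite V] (G : SimpleGraph V) (U : Set V) (i : ℕ) (r : V → ℕ)
    (hr : Set.InjOn r U)
    (h : ∀ v ∈ U, {u | u ∈ U ∧ r u < r v}.ncard ≤ 3 * i + 1 ∨
      LV (G.induce {u | u ∈ U ∧ G.Adj v u ∧ r u < r v}) i) : LV (G.induce U) (i + 1) := by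
  classical
  have key : ∀ k : ℕ, ∀ A : Set V, A ⊆ U → (∀ a ∈ A, ∀ u ∈ U, r u < r a → u ∈ A) → A.ncard = k →
      LV (G.induce A) (i + 1) := by
    intro k
    induction k with
    | zero =>
      intro A _ _ hk
      rw [Set.ncard_eq_zero] at hk
      subst hk
      exact lv_empty G _ (by omega)
    | succ k ih =>
      intro A hAU hA hk
      obtain ⟨v, hv, hmax⟩ := Set.exists_max_image A r (Set.toFinite A) (by
        rw [← Set.ncard_pos]; omega)
      have hlt : ∀ x ∈ A, x ≠ v → r x < r v := fun x hx hne =>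
        lt_of_le_of_ne (hmax x hx) fun e => hne (hr (hAU hx) (hAU hv) e)
      have hsub : A \ {v} = {u | u ∈ U ∧ r u < r v} := by
        ext x
        constructor
        · rintro ⟨hx1, hx2⟩
          exact ⟨hAU hx1, hlt x hx1 hx2⟩
        · rintro ⟨hx1, hx2⟩
          exact ⟨hA v hv x hx1 hx2, fun e => by
            have e' : x = v := e
            subst e'
            exact lt_irrefl _ hx2⟩
      have hcard : (A \ {v}).ncard = k := by
        rw [Set.ncard_sdiff_singleton_of_mem hv, hk]; omega
      rcases h v (hAU hv) with h1 | h1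
      · rw [← hsub, hcard] at h1
        exact lv_few G _ (i + 1) A rfl (by omega) (by omega)
      · refine lv_add G A v hv (i + 1) (ih (A \ {v}) (Set.sdiff_subset.trans hAU) ?_ hcard) fun j hj => ?_
        · rintro a ⟨ha1, ha2⟩ u hu hua
          refine ⟨hA a ha1 u hu hua, fun e => ?_⟩
          have e' : u = v := e
          subst e'
          exact absurd (hlt a ha1 ha2) (not_lt.2 hua.le)
        · have hj' : j = i := by omega
          subst hj'
          refine lv_set ?_ h1
          ext x
          constructor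
          · rintro ⟨hx1, hx2⟩
            exact ⟨hAU hx1, hx2, hlt x hx1 fun e => by
              subst e
              exact G.loopless.irrefl _ hx2⟩
          · rintro ⟨hx1, hx2, hx3⟩
            exact ⟨hA v hv x hx1 hx3, hx2⟩
  exact key _ U subset_rfl (fun _ _ u hu _ => hu) rfl

/-- orderings with few simplices with large links -/
theorem ordered {V : Type} [Fintype V] [LinearOrder V] {G : SimpleGraph V} {n : ℕ} (hS : HSph n G)
    (T : Finset V) (hT : G.IsClique (T : Set V)) (U : Set V) (hU : U ⊆ lk G T) (i : ℕ) (r : V → ℕ)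
    (hr : Set.InjOn r U)
    (h : ∀ v ∈ U, {u | u ∈ U ∧ r u < r v}.ncard ≤ 3 * i + 1 ∨
      ∃ k ≤ i, {S : Finset V | G.IsClique (S : Set V) ∧ (S : Set V) ⊆ {u | u ∈ U ∧ G.Adj v u ∧ r u < r v} ∧
        S.card = k ∧ 2 * (n - (T.card + 1 + k)) + (i - k) ≤ (lk G (insert v T ∪ S)).ncard ∧
        3 * (i - k) ≤ ({u | u ∈ U ∧ G.Adj v u ∧ r u < r v} ∩ lk G S).ncard}.ncard < 3 ^ k * i.choose k) :
    LV (G.induce U) (i + 1) := by
  refine lv_prefix G U i r hr fun v hv => ?_
  rcases h v hv with h1 | ⟨k, hk, h1⟩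
  · exact Or.inl h1
  · right
    by_contra hn
    have hvT : v ∉ T := fun hvT => G.loopless.irrefl _ (hU hv v hvT)
    have h2 := count_large hS (insert v T) (clique_ins hT (hU hv))
      {u | u ∈ U ∧ G.Adj v u ∧ r u < r v} (fun u hu t ht => by
        rw [Finset.mem_insert] at ht
        rcases ht with rfl | ht
        · exact hu.2.1.symm
        · exact hU hu.1 t ht) k i hk hn
    rw [Finset.card_insert_of_notMem hvT] at h2
    exact absurd h2 (not_le.2 h1)

end Pool.Agent.U474.FN
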