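import Pool.Agent.N13.PL.All
import Pool.Agent.N13.VB.Main

/-!
# Face numbers of nerves with nonzero `ℓ²`-homology

By helper474.
-/

set_option autoImplicit false
set_option linter.unusedSectionVars false

namespace Pool.Agent.U474.FN

open Pool.Agent.W907.SG Pool.Agent.W907.SM Pool.Agent.TH652.Above Pool.Agent.R703.CW
open Pool.Agent.Y132.SI Pool.Agent.N13.EU

/-- the `k`-cliques `T` in `A` such that a special subgroup of the link of `T` in `A` has nonzero `ℓ²`-homology
in the degree `j` -/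
def good {V : Type} (G : SimpleGraph V) (A : Set V) (k j : ℕ) : Set (Finset V) :=
  {T | G.IsClique (T : Set V) ∧ (T : Set V) ⊆ A ∧ T.card = k ∧
    ∃ B : Set V, B ⊆ A ∧ B ⊆ lk G T ∧ ¬ LV (G.induce B) j}

/-- the core -/
theorem core {V : Type} [Finite V] (G : SimpleGraph V) (A : Set V) (j : ℕ) (h : ¬ LV (G.induce A) (j + 1)) :
    ∃ B : Set V, B ⊆ A ∧ 3 * (j + 1) ≤ B.ncard ∧ ¬ LV (G.induce B) (j + 1) ∧
      ∀ v ∈ B, ¬ LV (G.induce (B ∩ G.neighborSet v)) j := by
  classical
  obtain ⟨B, hB⟩ := Set.Finite.exists_minimal (Set.toFinite {B : Set V | B ⊆ A ∧ ¬ LV (G.induce B) (j + 1)})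
    ⟨A, subset_rfl, h⟩
  obtain ⟨⟨hBA, hBn⟩, hmin⟩ := hB
  refine ⟨B, hBA, ?_, hBn, fun v hv hL => ?_⟩
  · by_contra hc
    exact hBn (lv_few G _ (j + 1) B rfl (by omega) (by omega))
  · refine hBn (lv_add G B v hv (j + 1) ?_ fun j' hj' => ?_)
    · by_contra hn
      have h1 := hmin (y := B \ {v}) ⟨Set.sdiff_subset.trans hBA, hn⟩ Set.sdiff_subset
      exact (h1 hv).2 rfl
    · have : j' = j := by omega
      rw [this]
      exact hL

theorem good_zero {V : Type} [Finite V] (G : SimpleGraph V) (A : Set V) (j : ℕ)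
    (h : ¬ LV (G.induce A) j) : (∅ : Finset V) ∈ good G A 0 j :=
  ⟨by simp, by simp, rfl, A, subset_rfl, fun v _ u hu => absurd hu (Finset.notMem_empty u), h⟩

/-- **the face numbers** -/
theorem count {V : Type} [Finite V] (G : SimpleGraph V) (j : ℕ) : ∀ (k : ℕ) (A : Set V),
    ¬ LV (G.induce A) (k + j) → 3 ^ k * (k + j).choose k ≤ (good G A k j).ncard := by
  classical
  have : Fintype V := Fintype.ofFinite V
  intro k
  induction k with
  | zero =>
    intro A h
    rw [Nat.zero_add] at h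
    have h1 : 0 < (good G A 0 j).ncard := by
      rw [Set.ncard_pos]
      exact ⟨_, good_zero G A j h⟩
    rw [pow_zero, Nat.choose_zero_right]
    omega
  | succ k ih =>
    intro A h
    have h' : ¬ LV (G.induce A) (k + j + 1) := by
      rwa [show k + 1 + j = k + j + 1 by omega] at h
    obtain ⟨B, hBA, hB3, -, hBv⟩ := core G A (k + j) h'
    obtain ⟨Bf, hBf⟩ : ∃ Bf : Finset V, (Bf : Set V) = B := ⟨(Set.toFinite B).toFinset, Set.Finite.coe_toFinset _⟩
    obtain ⟨Gf, hGf⟩ : ∃ Gf : Finset (Finset V), (Gf : Set (Finset V)) = good G A (k + 1) j :=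
      ⟨(Set.toFinite (good G A (k + 1) j)).toFinset, Set.Finite.coe_toFinset _⟩
    have hmB : ∀ v, v ∈ Bf ↔ v ∈ B := fun v => by rw [← hBf, Finset.mem_coe]
    have hmG : ∀ T, T ∈ Gf ↔ T ∈ good G A (k + 1) j := fun T => by rw [← hGf, Finset.mem_coe]
    have hcB : B.ncard = Bf.card := by rw [← hBf, Set.ncard_coe_finset]
    have hcG : (good G A (k + 1) j).ncard = Gf.card := by rw [← hGf, Set.ncard_coe_finset]
    -- each vertex of the core
    have h1 : ∀ v ∈ Bf, 3 ^ k * (k + j).choose k ≤ (Gf.filter fun T => v ∈ T).card := by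
      intro v hv
      have hvB := (hmB v).1 hv
      refine (ih _ (hBv v hvB)).trans ?_
      rw [← Set.ncard_coe_finset]
      refine Set.ncard_le_ncard_of_injOn (fun T => insert v T) ?_ ?_ (Set.toFinite _)
      · rintro T ⟨hT1, hT2, hT3, C, hC1, hC2, hC3⟩
        have hvT : v ∉ T := fun hvT => G.loopless.irrefl _ (hT2 (Finset.mem_coe.2 hvT)).2
        rw [Finset.mem_coe, Finset.mem_filter, hmG]
        refine ⟨⟨?_, ?_, ?_, C, ?_, ?_, hC3⟩, Finset.mem_insert_self _ _⟩
        · rw [Finset.coe_insert, SimpleGraph.isClique_insert_of_notMem (by simpa using hvT)]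
          exact ⟨hT1, fun b hb => (hT2 hb).2⟩
        · rw [Finset.coe_insert]
          exact Set.insert_subset (hBA hvB) (fun x hx => hBA (hT2 hx).1)
        · rw [Finset.card_insert_of_notMem hvT, hT3]
        · exact fun x hx => hBA (hC1 hx).1
        · intro x hx u hu
          rw [Finset.mem_insert] at hu
          rcases hu with rfl | hu
          · exact (hC1 hx).2.symm
          · exact hC2 hx u hu
      · rintro T ⟨-, hT2, -⟩ T' ⟨-, hT2', -⟩ he
        have hvT : v ∉ T := fun hvT => G.loopless.irrefl _ (hT2 (Finset.mem_coe.2 hvT)).2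
        have hvT' : v ∉ T' := fun hvT => G.loopless.irrefl _ (hT2' (Finset.mem_coe.2 hvT)).2
        have he' : insert v T = insert v T' := he
        rw [← Finset.erase_insert hvT, he', Finset.erase_insert hvT']
    have h2 : ∑ v ∈ Bf, (Gf.filter fun T => v ∈ T).card = ∑ T ∈ Gf, (Bf.filter fun v => v ∈ T).card :=
      Finset.sum_card_bipartiteAbove_eq_sum_card_bipartiteBelow (fun v T => v ∈ T)
    have h3 : ∑ T ∈ Gf, (Bf.filter fun v => v ∈ T).card ≤ Gf.card * (k + 1) := by
      rw [← smul_eq_mul]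
      refine Finset.sum_le_card_nsmul _ _ _ fun T hT => ?_
      refine (Finset.card_le_card (fun v hv => (Finset.mem_filter.1 hv).2)).trans ?_
      exact ((hmG T).1 hT).2.2.1.le
    have h4 : Bf.card * (3 ^ k * (k + j).choose k) ≤ ∑ v ∈ Bf, (Gf.filter fun T => v ∈ T).card := by
      rw [← smul_eq_mul]
      exact Finset.card_nsmul_le_sum _ _ _ h1
    rw [hcG]
    have h5 : 3 * (k + j + 1) * (3 ^ k * (k + j).choose k) ≤ Gf.card * (k + 1) := by
      refine le_trans (Nat.mul_le_mul_right _ ?_) (h4.trans (h2.trans_le h3))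
      omega
    have h6 := Nat.add_one_mul_choose_eq (k + j) k
    have h7 : 3 ^ (k + 1) * (k + j + 1).choose (k + 1) * (k + 1) ≤ Gf.card * (k + 1) := by
      calc 3 ^ (k + 1) * (k + j + 1).choose (k + 1) * (k + 1)
          = 3 ^ (k + 1) * ((k + j + 1).choose (k + 1) * (k + 1)) := by ring
        _ = 3 ^ (k + 1) * ((k + j + 1) * (k + j).choose k) := by rw [h6]
        _ = 3 * (k + j + 1) * (3 ^ k * (k + j).choose k) := by ring
        _ ≤ _ := h5
    rw [show k + 1 + j = k + j + 1 by omega]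
    exact Nat.le_of_mul_le_mul_right h7 (by omega)

/-- vertex numbers of links in a homology sphere -/
theorem link_size {V : Type} [Fintype V] [LinearOrder V] {G : SimpleGraph V} {n : ℕ} (hS : HSph n G)
    {T : Finset V} (hT : G.IsClique (T : Set V)) {B : Set V} (hB : B ⊆ lk G T) {j : ℕ}
    (h : ¬ LV (G.induce B) j) : 2 * (n - T.card) + j ≤ (lk G T).ncard := by
  classical
  by_contra hc
  have h1 := (Pool.Agent.N13.VB.main (n - T.card) _ (G.induce (lk G T)) (hsph_link hS T hT)).2
    (Subtype.val ⁻¹' B) j (by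
      rw [← Nat.card_eq_fintype_card, Nat.card_coe_set_eq]
      omega)
  rw [lv_sub] at h1
  refine h (lv_set ?_ h1)
  ext x
  constructor
  · exact fun hx => ⟨⟨x, hB hx⟩, hx, rfl⟩
  · rintro ⟨x', hx', rfl⟩
    exact hx'

/-- the number of simplices with large links -/
theorem count_large {V : Type} [Fintype V] [LinearOrder V] {G : SimpleGraph V} {n : ℕ} (hS : HSph n G)
    (T : Finset V) (hT : G.IsClique (T : Set V)) (A : Set V) (hA : A ⊆ lk G T) (k i : ℕ) (hki : k ≤ i)
    (h : ¬ LV (G.induce A) i) :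
    3 ^ k * i.choose k ≤ {S : Finset V | G.IsClique (S : Set V) ∧ (S : Set V) ⊆ A ∧ S.card = k ∧
      2 * (n - (T.card + k)) + (i - k) ≤ (lk G (T ∪ S)).ncard ∧ 3 * (i - k) ≤ (A ∩ lk G S).ncard}.ncard := by
  classical
  obtain ⟨j, rfl⟩ : ∃ j, i = k + j := ⟨i - k, by omega⟩
  refine (count G j k A h).trans (Set.ncard_le_ncard ?_ (Set.toFinite _))
  rintro S ⟨hS1, hS2, hS3, B, hB1, hB2, hB3⟩
  refine ⟨hS1, hS2, hS3, ?_, ?_⟩
  · have hdis : Disjoint T S := by
      rw [Finset.disjoint_left]
      intro x hxT hxS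
      exact G.loopless.irrefl _ (hA (hS2 (Finset.mem_coe.2 hxS)) x hxT)
    have hcl : G.IsClique ((T ∪ S : Finset V) : Set V) := by
      intro a ha b hb hab
      rw [Finset.mem_coe, Finset.mem_union] at ha hb
      rcases ha with ha | ha <;> rcases hb with hb | hb
      · exact hT ha hb hab
      · exact (hA (hS2 (Finset.mem_coe.2 hb)) a ha).symm
      · exact hA (hS2 (Finset.mem_coe.2 ha)) b hb
      · exact hS1 ha hb hab
    have h1 := link_size hS hcl (B := B) (fun x hx u hu => by
      rw [Finset.mem_union] at hu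
      rcases hu with hu | hu
      · exact hA (hB1 hx) u hu
      · exact hB2 hx u hu) hB3
    rw [Finset.card_union_of_disjoint hdis, hS3] at h1
    rw [Nat.add_sub_cancel_left]
    exact h1
  · rw [Nat.add_sub_cancel_left]
    rcases Nat.eq_zero_or_pos j with rfl | hj
    · simp
    · by_contra hc
      have h2 : B.ncard ≤ (A ∩ lk G S).ncard :=
        Set.ncard_le_ncard (fun x hx => ⟨hB1 hx, hB2 hx⟩) (Set.toFinite _)
      exact hB3 (lv_few G _ j B rfl hj (by omega))

end Pool.Agent.U474.FN
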